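import Pool.Agent.helper68.B2.Defs

/-! # B2 wave 2, module B0b: product rules, connectedness, compactness -/

set_option autoImplicit false

namespace Pool.Agent.helper68.B2

open scoped ContDiff Topology Matrix
open Matrix Set

section
variable {f : E4 → ℝ} {A B : E4 → M3} {V W : E4 → V3} {v : V3} {x : E4}

/-- `f` is differentiable at `x` and its derivative in the direction `v` is `d`. -/
def B0b_H {F : Type*} [NormedAddCommGroup F] [NormedSpace ℝ F] (v : V3) (x : E4) (f : E4 → F)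
    (d : F) : Prop := ∃ f' : E4 →L[ℝ] F, HasFDerivAt f f' x ∧ f' (fld v x) = d

theorem B0b_H.eq {F : Type*} [NormedAddCommGroup F] [NormedSpace ℝ F] {f : E4 → F} {d : F}
    (h : B0b_H v x f d) : Dv f v x = d := by
  obtain ⟨f', h1, h2⟩ := h
  unfold Dv
  rw [h1.fderiv, h2]

theorem B0b_H.diff {F : Type*} [NormedAddCommGroup F] [NormedSpace ℝ F] {f : E4 → F} {d : F}
    (h : B0b_H v x f d) : DifferentiableAt ℝ f x := by
  obtain ⟨f', h1, h2⟩ := h
  exact h1.differentiableAt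

theorem B0b_H_of {F : Type*} [NormedAddCommGroup F] [NormedSpace ℝ F] {f : E4 → F}
    (h : DifferentiableAt ℝ f x) : B0b_H v x f (Dv f v x) := ⟨_, h.hasFDerivAt, rfl⟩

theorem B0b_H.congr {F : Type*} [NormedAddCommGroup F] [NormedSpace ℝ F] {f : E4 → F} {d d' : F}
    (h : B0b_H v x f d) (hd : d = d') : B0b_H v x f d' := hd ▸ h

theorem B0b_H.add {F : Type*} [NormedAddCommGroup F] [NormedSpace ℝ F] {f g : E4 → F} {d e : F}
    (hf : B0b_H v x f d) (hg : B0b_H v x g e) : B0b_H v x (fun y => f y + g y) (d + e) := by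
  obtain ⟨f', h1, h2⟩ := hf
  obtain ⟨g', h3, h4⟩ := hg
  exact ⟨_, h1.add h3, by rw [_root_.add_apply, h2, h4]⟩

theorem B0b_H.sub {F : Type*} [NormedAddCommGroup F] [NormedSpace ℝ F] {f g : E4 → F} {d e : F}
    (hf : B0b_H v x f d) (hg : B0b_H v x g e) : B0b_H v x (fun y => f y - g y) (d - e) := by
  obtain ⟨f', h1, h2⟩ := hf
  obtain ⟨g', h3, h4⟩ := hg
  exact ⟨_, h1.sub h3, by rw [_root_.sub_apply, h2, h4]⟩

theorem B0b_H.mul {f g : E4 → ℝ} {d e : ℝ}
    (hf : B0b_H v x f d) (hg : B0b_H v x g e) :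
    B0b_H v x (fun y => f y * g y) (d * g x + f x * e) := by
  obtain ⟨f', h1, h2⟩ := hf
  obtain ⟨g', h3, h4⟩ := hg
  refine ⟨_, h1.mul h3, ?_⟩
  simp only [_root_.add_apply, _root_.smul_apply, smul_eq_mul, h2, h4]
  ring

/-- composition with a linear map -/
theorem B0b_H.lin {F G : Type*} [NormedAddCommGroup F] [NormedSpace ℝ F] [FiniteDimensional ℝ F]
    [NormedAddCommGroup G] [NormedSpace ℝ G] {f : E4 → F} {d : F} (T : F →ₗ[ℝ] G)
    (hf : B0b_H v x f d) : B0b_H v x (fun y => T (f y)) (T d) := by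
  obtain ⟨f', h1, h2⟩ := hf
  have h3 : HasFDerivAt (fun y => (LinearMap.toContinuousLinearMap T) (f y))
      ((LinearMap.toContinuousLinearMap T).comp f') x :=
    (LinearMap.toContinuousLinearMap T).hasFDerivAt.comp x h1
  refine ⟨_, h3, ?_⟩
  rw [ContinuousLinearMap.comp_apply, h2]
  rfl

/-- product rule for a bilinear map -/
theorem B0b_H.bilin {E F G : Type*} [NormedAddCommGroup E] [NormedSpace ℝ E]
    [FiniteDimensional ℝ E] [NormedAddCommGroup F] [NormedSpace ℝ F] [FiniteDimensional ℝ F]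
    [NormedAddCommGroup G] [NormedSpace ℝ G] {T : E → F → G} (hT : IsBilinearMap ℝ T)
    {f : E4 → E} {g : E4 → F} {d : E} {e : F} (hf : B0b_H v x f d) (hg : B0b_H v x g e) :
    B0b_H v x (fun y => T (f y) (g y)) (T d (g x) + T (f x) e) := by
  obtain ⟨f', h1, h2⟩ := hf
  obtain ⟨g', h3, h4⟩ := hg
  have h5 := hT.toContinuousBilinearMap.hasFDerivAt_of_bilinear h1 h3
  refine ⟨_, h5, ?_⟩
  rw [_root_.add_apply, add_comm]
  change T (f' (fld v x)) (g x) + T (f x) (g' (fld v x)) = _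
  rw [h2, h4]

theorem B0b_contDiffAt_lin {n : WithTop ℕ∞} {F G : Type*} [NormedAddCommGroup F] [NormedSpace ℝ F]
    [FiniteDimensional ℝ F] [NormedAddCommGroup G] [NormedSpace ℝ G] {f : E4 → F}
    (T : F →ₗ[ℝ] G) (hf : ContDiffAt ℝ n f x) : ContDiffAt ℝ n (fun y => T (f y)) x :=
  (LinearMap.toContinuousLinearMap T).contDiff.contDiffAt.comp x hf

theorem B0b_contDiffAt_bilin {n : WithTop ℕ∞} {E F G : Type*} [NormedAddCommGroup E]
    [NormedSpace ℝ E]
    [FiniteDimensional ℝ E] [NormedAddCommGroup F] [NormedSpace ℝ F] [FiniteDimensional ℝ F]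
    [NormedAddCommGroup G] [NormedSpace ℝ G] {T : E → F → G} (hT : IsBilinearMap ℝ T)
    {f : E4 → E} {g : E4 → F} (hf : ContDiffAt ℝ n f x) (hg : ContDiffAt ℝ n g x) :
    ContDiffAt ℝ n (fun y => T (f y) (g y)) x :=
  hT.toContinuousBilinearMap.isBoundedBilinearMap.contDiff.contDiffAt.comp x (hf.prodMk hg)

theorem Dv_const {F : Type*} [NormedAddCommGroup F] [NormedSpace ℝ F] (c : F) :
    Dv (fun _ => c) v x = 0 := by
  simp [Dv]

theorem Dv_add {F : Type*} [NormedAddCommGroup F] [NormedSpace ℝ F] {f g : E4 → F}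
    (hf : DifferentiableAt ℝ f x) (hg : DifferentiableAt ℝ g x) :
    Dv (fun y => f y + g y) v x = Dv f v x + Dv g v x :=
  ((B0b_H_of hf).add (B0b_H_of hg)).eq

theorem Dv_sub {F : Type*} [NormedAddCommGroup F] [NormedSpace ℝ F] {f g : E4 → F}
    (hf : DifferentiableAt ℝ f x) (hg : DifferentiableAt ℝ g x) :
    Dv (fun y => f y - g y) v x = Dv f v x - Dv g v x :=
  ((B0b_H_of hf).sub (B0b_H_of hg)).eq

theorem Dv_smul {F : Type*} [NormedAddCommGroup F] [NormedSpace ℝ F] {g : E4 → F}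
    (hf : DifferentiableAt ℝ f x) (hg : DifferentiableAt ℝ g x) :
    Dv (fun y => f y • g y) v x = Dv f v x • g x + f x • Dv g v x := by
  have h := (hf.hasFDerivAt.smul hg.hasFDerivAt).fderiv
  unfold Dv
  have h' : fderiv ℝ (fun y => f y • g y) x = f x • fderiv ℝ g x +
    (fderiv ℝ f x).smulRight (g x) := h
  rw [h', _root_.add_apply, _root_.smul_apply,
    ContinuousLinearMap.smulRight_apply, add_comm]

theorem B0b_Dv_congr {F : Type*} [NormedAddCommGroup F] [NormedSpace ℝ F] {f g : E4 → F}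
    (h : f =ᶠ[𝓝 x] g) : Dv f v x = Dv g v x := by
  unfold Dv
  rw [h.fderiv_eq]

theorem B0b_bil_mul : IsBilinearMap ℝ (fun A B : M3 => A * B) where
  add_left _ _ _ := by simp [add_mul]
  smul_left _ _ _ := by simp
  add_right _ _ _ := by simp [mul_add]
  smul_right _ _ _ := by simp

theorem B0b_bil_mulVec : IsBilinearMap ℝ (fun (A : M3) (V : V3) => A *ᵥ V) where
  add_left _ _ _ := by simp [add_mulVec]
  smul_left _ _ _ := by simp [smul_mulVec]
  add_right _ _ _ := by simp [mulVec_add]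
  smul_right _ _ _ := by simp [mulVec_smul]

theorem B0b_bil_vecMulVec : IsBilinearMap ℝ (fun (V W : V3) => vecMulVec V W) where
  add_left _ _ _ := by simp [add_vecMulVec]
  smul_left _ _ _ := by simp [smul_vecMulVec]
  add_right _ _ _ := by simp [vecMulVec_add]
  smul_right _ _ _ := by simp [vecMulVec_smul]

theorem B0b_bil_dotProduct : IsBilinearMap ℝ (fun (V W : V3) => V ⬝ᵥ W) where
  add_left _ _ _ := by simp [add_dotProduct]
  smul_left _ _ _ := by simp
  add_right _ _ _ := by simp [dotProduct_add]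
  smul_right _ _ _ := by simp

theorem B0b_bil_crossM : IsBilinearMap ℝ (fun (A B : M3) => crossM A B) where
  add_left A B C := by
    unfold crossM
    simp only [add_mul, mul_add, trace_add, add_smul, smul_add, sub_smul]
    abel
  smul_left c A B := by
    unfold crossM
    simp only [smul_mul_assoc, mul_smul_comm, trace_smul, smul_add, smul_sub, smul_smul,
      smul_eq_mul, sub_smul]
    congr 3
    · rw [mul_comm]
    · rw [mul_assoc]
  add_right A B C := by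
    unfold crossM
    simp only [add_mul, mul_add, trace_add, add_smul, smul_add, sub_smul]
    abel
  smul_right c A B := by
    unfold crossM
    simp only [smul_mul_assoc, mul_smul_comm, trace_smul, smul_add, smul_sub, smul_smul,
      smul_eq_mul, sub_smul]
    congr 3
    · rw [mul_comm]
    · rw [mul_left_comm]

theorem Dv_mul (hA : DifferentiableAt ℝ A x) (hB : DifferentiableAt ℝ B x) :
    Dv (fun y => A y * B y) v x = Dv A v x * B x + A x * Dv B v x :=
  ((B0b_H_of hA).bilin B0b_bil_mul (B0b_H_of hB)).eq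

theorem Dv_transpose (hA : DifferentiableAt ℝ A x) :
    Dv (fun y => (A y)ᵀ) v x = (Dv A v x)ᵀ :=
  ((B0b_H_of hA).lin (Matrix.transposeLinearEquiv (Fin 3) (Fin 3) ℝ ℝ).toLinearMap).eq

theorem Dv_trace (hA : DifferentiableAt ℝ A x) :
    Dv (fun y => (A y).trace) v x = (Dv A v x).trace :=
  ((B0b_H_of hA).lin (Matrix.traceLinearMap (Fin 3) ℝ ℝ)).eq

theorem Dv_entry (hA : DifferentiableAt ℝ A x) (i j : Fin 3) :
    Dv (fun y => A y i j) v x = Dv A v x i j :=
  ((B0b_H_of hA).lin (Matrix.entryLinearMap ℝ ℝ i j)).eq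

theorem Dv_comp_entry (hV : DifferentiableAt ℝ V x) (i : Fin 3) :
    Dv (fun y => V y i) v x = Dv V v x i :=
  ((B0b_H_of hV).lin (LinearMap.proj (R := ℝ) (φ := fun _ : Fin 3 => ℝ) i)).eq

theorem Dv_mulVec (hA : DifferentiableAt ℝ A x) (hV : DifferentiableAt ℝ V x) :
    Dv (fun y => A y *ᵥ V y) v x = Dv A v x *ᵥ V x + A x *ᵥ Dv V v x :=
  ((B0b_H_of hA).bilin B0b_bil_mulVec (B0b_H_of hV)).eq

theorem Dv_vecMulVec (hV : DifferentiableAt ℝ V x) (hW : DifferentiableAt ℝ W x) :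
    Dv (fun y => vecMulVec (V y) (W y)) v x
      = vecMulVec (Dv V v x) (W x) + vecMulVec (V x) (Dv W v x) :=
  ((B0b_H_of hV).bilin B0b_bil_vecMulVec (B0b_H_of hW)).eq

theorem Dv_dotProduct (hV : DifferentiableAt ℝ V x) (hW : DifferentiableAt ℝ W x) :
    Dv (fun y => V y ⬝ᵥ W y) v x = Dv V v x ⬝ᵥ W x + V x ⬝ᵥ Dv W v x :=
  ((B0b_H_of hV).bilin B0b_bil_dotProduct (B0b_H_of hW)).eq

theorem B0b_H_entry {D : M3} (hA : B0b_H v x A D) (i j : Fin 3) :
    B0b_H v x (fun y => A y i j) (D i j) := hA.lin (Matrix.entryLinearMap ℝ ℝ i j)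

theorem B0b_H_det {D : M3} (hA : B0b_H v x A D) :
    B0b_H v x (fun y => (A y).det) ((A x).adjugate * D).trace := by
  have h := fun i j => B0b_H_entry hA i j
  have h1 := (((((((h 0 0).mul (h 1 1)).mul (h 2 2)).sub (((h 0 0).mul (h 1 2)).mul (h 2 1))).sub
    (((h 0 1).mul (h 1 0)).mul (h 2 2))).add (((h 0 1).mul (h 1 2)).mul (h 2 0))).add
    (((h 0 2).mul (h 1 0)).mul (h 2 1))).sub (((h 0 2).mul (h 1 1)).mul (h 2 0))
  have h2 : (fun y => (A y).det) = fun y => A y 0 0 * A y 1 1 * A y 2 2 - A y 0 0 * A y 1 2 * A y 2 1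
    - A y 0 1 * A y 1 0 * A y 2 2 + A y 0 1 * A y 1 2 * A y 2 0 + A y 0 2 * A y 1 0 * A y 2 1
    - A y 0 2 * A y 1 1 * A y 2 0 := by
    funext y; exact Matrix.det_fin_three _
  rw [h2]
  refine h1.congr ?_
  rw [Matrix.trace_fin_three]
  simp only [Matrix.mul_apply, Fin.sum_univ_three]
  rw [Matrix.adjugate_fin_three]
  simp
  ring

theorem Dv_det (hA : DifferentiableAt ℝ A x) :
    Dv (fun y => (A y).det) v x = ((A x).adjugate * Dv A v x).trace :=
  (B0b_H_det (B0b_H_of hA)).eq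

theorem B0b_adjugate (M : M3) : M.adjugate = (1 / 2 : ℝ) • crossM M M := by
  unfold crossM
  rw [Matrix.adjugate_fin_three]
  ext i j
  fin_cases i <;> fin_cases j <;>
  · simp [Matrix.mul_apply, Fin.sum_univ_three, Matrix.trace_fin_three]
    ring

theorem B0b_crossM_comm (M N : M3) : crossM M N = crossM N M := by
  unfold crossM
  rw [Matrix.trace_mul_comm M N, mul_comm M.trace]
  abel

theorem B0b_H_adjugate {D : M3} (hA : B0b_H v x A D) :
    B0b_H v x (fun y => (A y).adjugate) (crossM (A x) D) := by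
  have h := (hA.bilin B0b_bil_crossM hA).lin (LinearMap.lsmul ℝ M3 (1 / 2 : ℝ))
  have h2 : (fun y => (A y).adjugate) =
      fun y => (LinearMap.lsmul ℝ M3 (1 / 2 : ℝ)) (crossM (A y) (A y)) := by
    funext y; exact B0b_adjugate _
  rw [h2]
  refine h.congr ?_
  rw [B0b_crossM_comm D, ← two_smul ℝ, LinearMap.lsmul_apply, smul_smul]
  norm_num

theorem Dv_adjugate (hA : DifferentiableAt ℝ A x) :
    Dv (fun y => (A y).adjugate) v x = crossM (A x) (Dv A v x) :=
  (B0b_H_adjugate (B0b_H_of hA)).eq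

theorem contDiffAt_entries {n : WithTop ℕ∞} :
    ContDiffAt ℝ n A x ↔ ∀ i j, ContDiffAt ℝ n (fun y => A y i j) x := by
  constructor
  · intro h i j
    exact B0b_contDiffAt_lin (Matrix.entryLinearMap ℝ ℝ i j) h
  · intro h
    have h1 : A = fun y => ∑ i, ∑ j, (A y i j) • Matrix.single i j (1 : ℝ) := by
      funext y
      conv_lhs => rw [Matrix.matrix_eq_sum_single (A y)]
      simp [Matrix.smul_single]
    rw [h1]
    refine ContDiffAt.sum fun i _ => ContDiffAt.sum fun j _ => ?_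
    exact (h i j).smul contDiffAt_const

theorem contDiffAt_mulVec {n : WithTop ℕ∞} (hA : ContDiffAt ℝ n A x) (hV : ContDiffAt ℝ n V x) :
    ContDiffAt ℝ n (fun y => A y *ᵥ V y) x := B0b_contDiffAt_bilin B0b_bil_mulVec hA hV

theorem contDiffAt_det {n : WithTop ℕ∞} (hA : ContDiffAt ℝ n A x) :
    ContDiffAt ℝ n (fun y => (A y).det) x := by
  have h := contDiffAt_entries.1 hA
  have h2 : (fun y => (A y).det) = fun y => A y 0 0 * A y 1 1 * A y 2 2 - A y 0 0 * A y 1 2 * A y 2 1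
    - A y 0 1 * A y 1 0 * A y 2 2 + A y 0 1 * A y 1 2 * A y 2 0 + A y 0 2 * A y 1 0 * A y 2 1
    - A y 0 2 * A y 1 1 * A y 2 0 := by
    funext y; exact Matrix.det_fin_three _
  rw [h2]
  exact (((((((h 0 0).mul (h 1 1)).mul (h 2 2)).sub (((h 0 0).mul (h 1 2)).mul (h 2 1))).sub
    (((h 0 1).mul (h 1 0)).mul (h 2 2))).add (((h 0 1).mul (h 1 2)).mul (h 2 0))).add
    (((h 0 2).mul (h 1 0)).mul (h 2 1))).sub (((h 0 2).mul (h 1 1)).mul (h 2 0))

theorem contDiffAt_trace {n : WithTop ℕ∞} (hA : ContDiffAt ℝ n A x) :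
    ContDiffAt ℝ n (fun y => (A y).trace) x :=
  B0b_contDiffAt_lin (Matrix.traceLinearMap (Fin 3) ℝ ℝ) hA

theorem contDiffAt_adjugate {n : WithTop ℕ∞} (hA : ContDiffAt ℝ n A x) :
    ContDiffAt ℝ n (fun y => (A y).adjugate) x := by
  have h2 : (fun y => (A y).adjugate) =
      fun y => (1 / 2 : ℝ) • (crossM (A y) (A y)) := by
    funext y; exact B0b_adjugate _
  rw [h2]
  exact (B0b_contDiffAt_bilin B0b_bil_crossM hA hA).const_smul (1 / 2 : ℝ)

theorem B0b_inv_eq (M : M3) : M⁻¹ = (M.det)⁻¹ • M.adjugate := by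
  rw [Matrix.inv_def, Ring.inverse_eq_inv']

theorem contDiffAt_inv {n : WithTop ℕ∞} (hA : ContDiffAt ℝ n A x) (hd : (A x).det ≠ 0) :
    ContDiffAt ℝ n (fun y => (A y)⁻¹) x := by
  have h2 : (fun y => (A y)⁻¹) = fun y => ((A y).det)⁻¹ • (A y).adjugate := by
    funext y; exact B0b_inv_eq _
  rw [h2]
  exact ((contDiffAt_det hA).inv hd).smul (contDiffAt_adjugate hA)

theorem Dv_inv (hA : DifferentiableAt ℝ A x) (hd : (A x).det ≠ 0) :
    Dv (fun y => (A y)⁻¹) v x = -((A x)⁻¹ * Dv A v x * (A x)⁻¹) := by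
  have hdet : DifferentiableAt ℝ (fun y => (A y).det) x := (B0b_H_det (v := 0) (B0b_H_of hA)).diff
  have hadj : DifferentiableAt ℝ (fun y => (A y).adjugate) x :=
    (B0b_H_adjugate (v := 0) (B0b_H_of hA)).diff
  have hinv : DifferentiableAt ℝ (fun y => (A y)⁻¹) x := by
    have h2 : (fun y => (A y)⁻¹) = fun y => ((A y).det)⁻¹ • (A y).adjugate := by
      funext y; exact B0b_inv_eq _
    rw [h2]
    exact (hdet.inv hd).smul hadj
  have h1 := Dv_mul (v := v) hA hinv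
  have h2 : Dv (fun y => A y * (A y)⁻¹) v x = 0 := by
    have h3 : (fun y => A y * (A y)⁻¹) =ᶠ[𝓝 x] fun _ => (1 : M3) := by
      filter_upwards [hdet.continuousAt.eventually_ne hd] with y hy
      exact Matrix.mul_nonsing_inv _ (isUnit_iff_ne_zero.2 hy)
    rw [B0b_Dv_congr h3, Dv_const]
  rw [h2] at h1
  have h4 : (A x)⁻¹ * A x = 1 := Matrix.nonsing_inv_mul _ (isUnit_iff_ne_zero.2 hd)
  have h5 : A x * Dv (fun y => (A y)⁻¹) v x = -(Dv A v x * (A x)⁻¹) := by
    rw [eq_neg_iff_add_eq_zero, add_comm]; exact h1.symm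
  calc Dv (fun y => (A y)⁻¹) v x = ((A x)⁻¹ * A x) * Dv (fun y => (A y)⁻¹) v x := by
        rw [h4, one_mul]
    _ = (A x)⁻¹ * (A x * Dv (fun y => (A y)⁻¹) v x) := by rw [mul_assoc]
    _ = -((A x)⁻¹ * Dv A v x * (A x)⁻¹) := by rw [h5, mul_neg, mul_assoc]

theorem contDiffAt_vecMulVec {n : WithTop ℕ∞} (hV : ContDiffAt ℝ n V x)
    (hW : ContDiffAt ℝ n W x) : ContDiffAt ℝ n (fun y => vecMulVec (V y) (W y)) x :=
  B0b_contDiffAt_bilin B0b_bil_vecMulVec hV hW

theorem contDiffAt_dotProduct {n : WithTop ℕ∞} (hV : ContDiffAt ℝ n V x)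
    (hW : ContDiffAt ℝ n W x) : ContDiffAt ℝ n (fun y => V y ⬝ᵥ W y) x :=
  B0b_contDiffAt_bilin B0b_bil_dotProduct hV hW

theorem contDiffAt_bil {n : WithTop ℕ∞} (hA : ContDiffAt ℝ n A x) (hV : ContDiffAt ℝ n V x)
    (hW : ContDiffAt ℝ n W x) : ContDiffAt ℝ n (fun y => bil (A y) (V y) (W y)) x :=
  contDiffAt_dotProduct hV (contDiffAt_mulVec hA hW)

end

theorem isPreconnected_compl_zero : IsPreconnected ({0}ᶜ : Set E4) := by
  apply (isConnected_compl_singleton_of_one_lt_rank _ _).isPreconnected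
  rw [← Module.finrank_eq_rank]
  simp

/-- a function which is locally constant off `0` is constant -/
theorem const_of_locally {F : Type*} (f : E4 → F) (h : ∀ x, x ≠ 0 → ∀ᶠ y in 𝓝 x, f y = f x) :
    ∀ x y, x ≠ 0 → y ≠ 0 → f x = f y := by
  intro x y hx hy
  have hc : PreconnectedSpace ({0}ᶜ : Set E4) :=
    isPreconnected_iff_preconnectedSpace.1 isPreconnected_compl_zero
  have hl : IsLocallyConstant (fun z : ({0}ᶜ : Set E4) => f z) := by
    rw [IsLocallyConstant.iff_eventually_eq]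
    intro z
    have h1 := h z.1 z.2
    exact continuous_subtype_val.continuousAt.eventually h1
  exact hl.apply_eq_of_preconnectedSpace ⟨x, hx⟩ ⟨y, hy⟩

theorem B0b_J_apply (i : Fin 3) (x : E4) (k : Fin 4) : J i x k = (Jm i *ᵥ x.ofLp) k := by
  unfold J
  rw [Matrix.ofLp_toEuclideanCLM]

theorem B0b_inner (x y : E4) : inner ℝ x y = x 0 * y 0 + x 1 * y 1 + x 2 * y 2 + x 3 * y 3 := by
  rw [PiLp.inner_apply, Fin.sum_univ_four]
  simp [mul_comm]

theorem B0b_J0 (x : E4) : J 0 x 0 = -x 1 ∧ J 0 x 1 = x 0 ∧ J 0 x 2 = x 3 ∧ J 0 x 3 = -x 2 := by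
  refine ⟨?_, ?_, ?_, ?_⟩ <;> rw [B0b_J_apply] <;>
    simp [Jm, Matrix.mulVec, dotProduct, Fin.sum_univ_four]

theorem B0b_J1 (x : E4) : J 1 x 0 = -x 2 ∧ J 1 x 1 = -x 3 ∧ J 1 x 2 = x 0 ∧ J 1 x 3 = x 1 := by
  refine ⟨?_, ?_, ?_, ?_⟩ <;> rw [B0b_J_apply] <;>
    simp [Jm, Matrix.mulVec, dotProduct, Fin.sum_univ_four]

theorem B0b_J2 (x : E4) : J 2 x 0 = -x 3 ∧ J 2 x 1 = x 2 ∧ J 2 x 2 = -x 1 ∧ J 2 x 3 = x 0 := by
  refine ⟨?_, ?_, ?_, ?_⟩ <;> rw [B0b_J_apply] <;>
    simp [Jm, Matrix.mulVec, dotProduct, Fin.sum_univ_four]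

theorem B0b_decomp {x : E4} (hx : x ≠ 0) (w : E4) :
    w = fld (comps x w) x + (inner ℝ x w / ‖x‖ ^ 2) • x := by
  have hn : ‖x‖ ^ 2 = x 0 * x 0 + x 1 * x 1 + x 2 * x 2 + x 3 * x 3 := by
    rw [← real_inner_self_eq_norm_sq, B0b_inner]
  have hn0 : x 0 * x 0 + x 1 * x 1 + x 2 * x 2 + x 3 * x 3 ≠ 0 := by
    rw [← hn]
    exact pow_ne_zero 2 (norm_ne_zero_iff.2 hx)
  obtain ⟨a0, a1, a2, a3⟩ := B0b_J0 x
  obtain ⟨b0, b1, b2, b3⟩ := B0b_J1 x
  obtain ⟨c0, c1, c2, c3⟩ := B0b_J2 x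
  unfold fld comps
  rw [Fin.sum_univ_three, B0b_inner, B0b_inner, B0b_inner, B0b_inner, hn, a0, a1, a2, a3, b0, b1,
    b2, b3, c0, c1, c2, c3]
  obtain ⟨N, hN⟩ : ∃ N, N = x 0 * x 0 + x 1 * x 1 + x 2 * x 2 + x 3 * x 3 := ⟨_, rfl⟩
  rw [← hN] at hn0 ⊢
  ext k
  fin_cases k
  · simp [a0, b0, c0]
    field_simp
    rw [hN]
    ring
  · simp [a1, b1, c1]
    field_simp
    rw [hN]
    ring
  · simp [a2, b2, c2]
    field_simp
    rw [hN]
    ring
  · simp [a3, b3, c3]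
    field_simp
    rw [hN]
    ring

/-- vanishing frame derivatives and homogeneity: constant -/
theorem const_of_Dv {F : Type*} [NormedAddCommGroup F] [NormedSpace ℝ F] (f : E4 → F)
    (hd : ∀ x, x ≠ 0 → DifferentiableAt ℝ f x) (hH : Hom f)
    (h : ∀ x, x ≠ 0 → ∀ i, Dv f (ee i) x = 0) : ∀ x y, x ≠ 0 → y ≠ 0 → f x = f y := by
  have hfd : ∀ x : E4, x ≠ 0 → fderiv ℝ f x = 0 := by
    intro x hx
    have hrad : fderiv ℝ f x x = 0 := by
      have h1 : HasDerivAt (fun t : ℝ => t • x) x 1 := by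
        simpa using (hasDerivAt_id (1 : ℝ)).smul_const x
      have h2 : HasFDerivAt f (fderiv ℝ f x) ((1 : ℝ) • x) := by
        rw [one_smul]; exact (hd x hx).hasFDerivAt
      have h3 : HasDerivAt (fun t : ℝ => f (t • x)) (fderiv ℝ f x x) 1 :=
        h2.comp_hasDerivAt (1 : ℝ) h1
      have h4 : HasDerivAt (fun t : ℝ => f (t • x)) 0 1 := by
        have h5 : (fun t : ℝ => f (t • x)) =ᶠ[𝓝 1] fun _ => f x := by
          filter_upwards [lt_mem_nhds (zero_lt_one (α := ℝ))] with t ht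
          exact hH t ht x
        exact (hasDerivAt_const (1 : ℝ) (f x)).congr_of_eventuallyEq h5
      exact h3.unique h4
    have hJ : ∀ i, fderiv ℝ f x (J i x) = 0 := by
      intro i
      have h1 := h x hx i
      unfold Dv at h1
      have h2 : fld (ee i) x = J i x := by
        unfold fld ee
        rw [Finset.sum_eq_single i]
        · simp
        · intro j _ hj
          simp [hj]
        · simp
      rwa [h2] at h1
    ext w
    rw [B0b_decomp hx w, map_add, map_smul, hrad, smul_zero, add_zero]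
    unfold fld
    rw [map_sum, Finset.sum_eq_zero]
    · simp
    · intro i _
      rw [map_smul, hJ, smul_zero]
  have hopen : IsOpen ({0}ᶜ : Set E4) := isOpen_compl_singleton
  intro x y hx hy
  have h1 : DifferentiableOn ℝ f ({0}ᶜ : Set E4) := fun z hz => (hd z hz).differentiableWithinAt
  exact hopen.is_const_of_fderiv_eq_zero isPreconnected_compl_zero h1
    (fun z hz => hfd z hz) hx hy

/-- a continuous homogeneous function attains its maximum on a closed cone -/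
theorem exists_max_cone (Z : Set E4) (hZ : ∀ x ∈ Z, x ≠ 0)
    (hcl : ∀ x, x ≠ 0 → x ∈ closure Z → x ∈ Z) (hcone : ∀ x ∈ Z, ∀ t : ℝ, 0 < t → t • x ∈ Z)
    (hne : Z.Nonempty) (f : E4 → ℝ) (hf : ContinuousOn f Z) (hH : ∀ x ∈ Z, ∀ t : ℝ, 0 < t →
      f (t • x) = f x) : ∃ x ∈ Z, ∀ y ∈ Z, f y ≤ f x := by
  have hcpt : IsCompact (Z ∩ Metric.sphere (0 : E4) 1) := by
    apply (isCompact_sphere (0 : E4) 1).of_isClosed_subset _ Set.inter_subset_right
    have : Z ∩ Metric.sphere (0 : E4) 1 = closure Z ∩ Metric.sphere (0 : E4) 1 := by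
      ext y
      constructor
      · rintro ⟨h1, h2⟩
        exact ⟨subset_closure h1, h2⟩
      · rintro ⟨h1, h2⟩
        refine ⟨hcl y ?_ h1, h2⟩
        rintro rfl
        simp at h2
    rw [this]
    exact isClosed_closure.inter Metric.isClosed_sphere
  have hnorm : ∀ y ∈ Z, ‖y‖⁻¹ • y ∈ Z ∩ Metric.sphere (0 : E4) 1 := by
    intro y hy
    have hy0 : 0 < ‖y‖ := norm_pos_iff.2 (hZ y hy)
    refine ⟨hcone y hy _ (inv_pos.2 hy0), ?_⟩
    rw [mem_sphere_zero_iff_norm, norm_smul, norm_inv, norm_norm, inv_mul_cancel₀ hy0.ne']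
  obtain ⟨y₀, hy₀⟩ := hne
  obtain ⟨p, hp, hmax⟩ := hcpt.exists_isMaxOn ⟨_, hnorm y₀ hy₀⟩
    (hf.mono Set.inter_subset_left)
  refine ⟨p, hp.1, fun y hy => ?_⟩
  have hy0 : 0 < ‖y‖ := norm_pos_iff.2 (hZ y hy)
  have h1 := hmax (hnorm y hy)
  rw [Set.mem_ofPred_eq, hH y hy _ (inv_pos.2 hy0)] at h1
  exact h1

/-- sequences in cones: normalised subsequence converges -/
theorem exists_limit_cone (x : ℕ → E4) (hx : ∀ n, x n ≠ 0) :
    ∃ (φ : ℕ → ℕ) (p : E4), StrictMono φ ∧ p ≠ 0 ∧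
      Filter.Tendsto (fun n => (‖x (φ n)‖⁻¹) • x (φ n)) Filter.atTop (𝓝 p) := by
  have hmem : ∀ n, (‖x n‖⁻¹) • x n ∈ Metric.sphere (0 : E4) 1 := by
    intro n
    have h0 : 0 < ‖x n‖ := norm_pos_iff.2 (hx n)
    rw [mem_sphere_zero_iff_norm, norm_smul, norm_inv, norm_norm, inv_mul_cancel₀ h0.ne']
  obtain ⟨p, hp, φ, hφ, hlim⟩ := (isCompact_sphere (0 : E4) 1).tendsto_subseq hmem
  refine ⟨φ, p, hφ, ?_, hlim⟩
  rintro rfl
  simp at hp

end Pool.Agent.helper68.B2
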