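import Pool.Agent.helper98.B2.B0b
import Pool.Agent.helper31.B2.B0a
import Pool.Agent.helper74.B2.AD

/-! # B2 wave 2, module GA: first order identities -/

set_option autoImplicit false

namespace Pool.Agent.helper68.B2

open scoped ContDiff Topology Matrix
open Matrix Set

/-! ### matrix lemmas -/

theorem GA_bil_symm {G : M3} (hG : Gᵀ = G) (u v : V3) : bil G u v = bil G v u := by
  unfold bil
  rw [Matrix.dotProduct_mulVec, ← Matrix.mulVec_transpose, hG, dotProduct_comm]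

theorem GA_vecMulVec_mulVec (u w z : V3) : vecMulVec u w *ᵥ z = (w ⬝ᵥ z) • u := by
  ext i
  simp [vecMulVec_apply, mulVec, dotProduct, Fin.sum_univ_three]
  ring

theorem GA_mul_vecMulVec (A : M3) (u w : V3) : A * vecMulVec u w = vecMulVec (A *ᵥ u) w := by
  ext i j
  simp [vecMulVec_apply, mulVec, dotProduct, Fin.sum_univ_three, Matrix.mul_apply]
  ring

theorem GA_vecMulVec_mul (A : M3) (u w : V3) : vecMulVec u w * A = vecMulVec u (Aᵀ *ᵥ w) := by
  ext i j
  simp [vecMulVec_apply, mulVec, dotProduct, Fin.sum_univ_three, Matrix.mul_apply]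
  ring

theorem GA_trace_vecMulVec (u w : V3) : (vecMulVec u w).trace = u ⬝ᵥ w := by
  simp [Matrix.trace, vecMulVec_apply, dotProduct]

theorem GA_bil_add_left (G : M3) (u u' v : V3) : bil G (u + u') v = bil G u v + bil G u' v := by
  unfold bil; rw [add_dotProduct]

theorem GA_bil_add_right (G : M3) (u v v' : V3) : bil G u (v + v') = bil G u v + bil G u v' := by
  unfold bil; rw [mulVec_add, dotProduct_add]

theorem GA_bil_smul_left (G : M3) (c : ℝ) (u v : V3) : bil G (c • u) v = c * bil G u v := by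
  unfold bil; rw [smul_dotProduct, smul_eq_mul]

theorem GA_bil_smul_right (G : M3) (c : ℝ) (u v : V3) : bil G u (c • v) = c * bil G u v := by
  unfold bil; rw [mulVec_smul, dotProduct_smul, smul_eq_mul]

theorem GA_bil_mulVec_left (G A : M3) (u v : V3) : bil G (A *ᵥ u) v = u ⬝ᵥ ((Aᵀ * G) *ᵥ v) := by
  unfold bil
  rw [← Matrix.mulVec_mulVec, Matrix.dotProduct_mulVec u, ← Matrix.mulVec_transpose,
    Matrix.transpose_transpose]

theorem GA_bil_mulVec_right (G A : M3) (u v : V3) : bil G u (A *ᵥ v) = u ⬝ᵥ ((G * A) *ᵥ v) := by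
  unfold bil
  rw [← Matrix.mulVec_mulVec]

/-- self-adjointness gives the symmetric pairing -/
theorem GA_sa_bil {G A : M3} (h : Aᵀ * G = G * A) (u v : V3) :
    bil G (A *ᵥ u) v = bil G u (A *ᵥ v) := by
  rw [GA_bil_mulVec_left, GA_bil_mulVec_right, h]

theorem GA_sa_iff {G A : M3} (hG : Gᵀ = G) : (G * A)ᵀ = G * A ↔ Aᵀ * G = G * A := by
  rw [Matrix.transpose_mul, hG]

theorem GA_sa_adj {G M : M3} (h : Mᵀ * G = G * M) :
    (M.adjugate)ᵀ * G = G * M.adjugate := by
  rw [B0b_adjugate]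
  unfold crossM
  simp only [Matrix.transpose_smul, Matrix.transpose_add, Matrix.transpose_sub,
    Matrix.transpose_mul, Matrix.transpose_one, Matrix.smul_mul, Matrix.mul_smul,
    Matrix.add_mul, Matrix.sub_mul, Matrix.mul_add, Matrix.mul_sub, Matrix.one_mul,
    Matrix.mul_one]
  have h2 : Mᵀ * Mᵀ * G = G * (M * M) := by
    rw [Matrix.mul_assoc, h, ← Matrix.mul_assoc, h, Matrix.mul_assoc]
  rw [h2, h]

theorem GA_adj_comm (A Γ : M3) :
    Γ * A.adjugate - A.adjugate * Γ = crossM A (Γ * A - A * Γ) := by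
  rw [B0b_adjugate]
  unfold crossM
  have h1 : (Γ * A - A * Γ).trace = 0 := by
    rw [Matrix.trace_sub, Matrix.trace_mul_comm, sub_self]
  have h2 : (A * (Γ * A - A * Γ)).trace = 0 := by
    rw [mul_sub, Matrix.trace_sub, ← mul_assoc, ← mul_assoc, Matrix.trace_mul_comm (A * Γ) A,
      ← mul_assoc, sub_self]
  rw [h1, h2]
  simp only [mul_zero, sub_zero, zero_smul, add_zero, mul_add, add_mul, mul_sub, sub_mul,
    mul_smul_comm, smul_mul_assoc, mul_one, one_mul, smul_sub, smul_add, ← mul_assoc]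
  ext i j
  simp only [Matrix.sub_apply, Matrix.add_apply, Matrix.smul_apply, smul_eq_mul]
  ring

theorem GA_trace_adj_comm (A Γ : M3) : (A.adjugate * (Γ * A - A * Γ)).trace = 0 := by
  rw [mul_sub, Matrix.trace_sub, ← mul_assoc, ← mul_assoc, Matrix.trace_mul_comm (A.adjugate * Γ) A,
    ← mul_assoc, Matrix.adjugate_mul, Matrix.mul_adjugate, sub_self]

theorem GA_eq_sum (v : V3) : v = ∑ i, v i • ee i := by
  funext k
  simp [ee, Finset.sum_apply, Pi.single_apply]

theorem GA_odot_linear (G : M3) (v w : V3) : odot G v w = ∑ i, v i • odot G (ee i) w := by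
  have h : ∀ i j, odot G v w i j = ∑ k, v k * odot G (ee k) w i j := by
    intro i j
    simp only [odot, Matrix.add_apply, vecMulVec_apply, mulVec, dotProduct, Fin.sum_univ_three, ee]
    fin_cases i <;> simp <;> ring
  ext i j
  rw [h, Matrix.sum_apply]
  rfl

namespace Geo
variable (S : Geo)

theorem lor (x : E4) (hx : x ≠ 0) : (S.G x)ᵀ = S.G x ∧ (S.G x).det < 0 ∧
    ∃ v : V3, 0 < bil (S.G x) v v := ⟨S.symm x hx, S.det_neg x hx, S.pos x hx⟩

theorem g_symm {x : E4} (hx : x ≠ 0) (u v : V3) : S.g x u v = S.g x v u :=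
  GA_bil_symm (S.symm x hx) u v

theorem g_nondeg {x : E4} (hx : x ≠ 0) {u : V3} (h : ∀ v, S.g x u v = 0) : u = 0 := by
  have h1 : S.G x *ᵥ u = 0 := by
    apply dotProduct_eq_zero
    intro v
    have h2 := h v
    rw [S.g_symm hx] at h2
    rw [dotProduct_comm]
    exact h2
  exact Matrix.eq_zero_of_mulVec_eq_zero (S.det_neg x hx).ne h1

theorem od_apply {x : E4} (hx : x ≠ 0) (u w z : V3) :
    S.od x u w *ᵥ z = S.g x w z • u + S.g x u z • w := by
  have h : ∀ u : V3, (S.G x *ᵥ u) ⬝ᵥ z = S.g x u z := by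
    intro u
    rw [S.g_symm hx, dotProduct_comm]; rfl
  unfold od odot
  rw [add_mulVec, GA_vecMulVec_mulVec, GA_vecMulVec_mulVec, h, h]

theorem g_od {x : E4} (hx : x ≠ 0) (u w z z' : V3) :
    S.g x z (S.od x u w *ᵥ z') = S.g x u z * S.g x w z' + S.g x w z * S.g x u z' := by
  rw [S.od_apply hx]
  unfold g
  rw [GA_bil_add_right, GA_bil_smul_right, GA_bil_smul_right, GA_bil_symm (S.symm x hx) z u,
    GA_bil_symm (S.symm x hx) z w]
  ring

theorem GA_L {x : E4} (hx : x ≠ 0) : (S.L x)ᵀ * S.G x = S.G x * S.L x :=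
  (GA_sa_iff (S.symm x hx)).1 (S.selfadj x hx)

theorem g_L {x : E4} (hx : x ≠ 0) (u v : V3) : S.g x (S.L x *ᵥ u) v = S.g x u (S.L x *ᵥ v) :=
  GA_sa_bil (S.GA_L hx) u v

theorem GA_K (t : ℝ) {x : E4} (hx : x ≠ 0) : (S.K t x)ᵀ * S.G x = S.G x * S.K t x := by
  apply GA_sa_adj
  rw [Matrix.transpose_sub, Matrix.transpose_smul, Matrix.transpose_one, Matrix.sub_mul,
    S.GA_L hx, Matrix.mul_sub, Matrix.smul_mul, Matrix.mul_smul, Matrix.one_mul, Matrix.mul_one]

theorem g_K (t : ℝ) {x : E4} (hx : x ≠ 0) (u v : V3) :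
    S.g x (S.K t x *ᵥ u) v = S.g x u (S.K t x *ᵥ v) :=
  GA_sa_bil (S.GA_K t hx) u v

theorem Ku_symm (t : ℝ) {x : E4} (hx : x ≠ 0) : (S.Ku t x)ᵀ = S.Ku t x := by
  have hdet : IsUnit (S.G x).det := isUnit_iff_ne_zero.2 (S.det_neg x hx).ne
  have h1 : (S.G x)⁻¹ * S.G x = 1 := Matrix.nonsing_inv_mul _ hdet
  have h2 : S.G x * (S.G x)⁻¹ = 1 := Matrix.mul_nonsing_inv _ hdet
  unfold Ku
  rw [Matrix.transpose_mul, Matrix.transpose_nonsing_inv, S.symm x hx]
  calc (S.G x)⁻¹ * (S.K t x)ᵀ = (S.G x)⁻¹ * ((S.K t x)ᵀ * S.G x) * (S.G x)⁻¹ := by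
        rw [Matrix.mul_assoc, Matrix.mul_assoc, h2, Matrix.mul_one]
    _ = (S.G x)⁻¹ * S.G x * S.K t x * (S.G x)⁻¹ := by
        rw [S.GA_K t hx]; simp only [Matrix.mul_assoc]
    _ = S.K t x * (S.G x)⁻¹ := by rw [h1, Matrix.one_mul]

/-- metric compatibility, general direction -/
theorem metric_v {x : E4} (hx : x ≠ 0) (v : V3) :
    Dv S.G v x = (S.Gam v x)ᵀ * S.G x + S.G x * S.Gam v x := by
  rw [Dv_linear]
  unfold Gam
  rw [Matrix.transpose_sum, Finset.sum_mul, Finset.mul_sum, ← Finset.sum_add_distrib]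
  refine Finset.sum_congr rfl fun i _ => ?_
  rw [S.metric x hx i, Matrix.transpose_smul, smul_mul_assoc, mul_smul_comm, smul_add]

theorem main_v {x : E4} (hx : x ≠ 0) (v : V3) : S.nabE S.L v x = S.od x v (S.lam x) := by
  unfold nabE od Gam
  rw [Dv_linear, GA_odot_linear, Finset.sum_mul, Finset.mul_sum, ← Finset.sum_sub_distrib,
    ← Finset.sum_add_distrib]
  refine Finset.sum_congr rfl fun i _ => ?_
  rw [← S.main x hx i, smul_mul_assoc, mul_smul_comm, smul_add, smul_sub]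

theorem Gam_add (v w : V3) (x : E4) : S.Gam (v + w) x = S.Gam v x + S.Gam w x := by
  unfold Gam
  rw [← Finset.sum_add_distrib]
  exact Finset.sum_congr rfl fun i _ => by rw [Pi.add_apply, add_smul]

theorem Gam_smul (c : ℝ) (v : V3) (x : E4) : S.Gam (c • v) x = c • S.Gam v x := by
  unfold Gam
  rw [Finset.smul_sum]
  exact Finset.sum_congr rfl fun i _ => by rw [Pi.smul_apply, smul_eq_mul, mul_smul]

theorem GA_Gam_ee (i : Fin 3) (x : E4) : S.Gam (ee i) x = S.Γ i x := by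
  unfold Gam ee
  rw [Finset.sum_eq_single i]
  · simp
  · intro j _ hj; simp [hj]
  · simp

/-- torsion, general directions (constant components) -/
theorem torsion_v {x : E4} (hx : x ≠ 0) (v w : V3) :
    S.Gam v x *ᵥ w - S.Gam w x *ᵥ v = fun k => 2 * ∑ i, ∑ j, eps i j k * v i * w j := by
  funext k
  have h1 : (S.Gam v x *ᵥ w) k = ∑ i, ∑ j, v i * w j * S.Γ i x k j := by
    unfold Gam
    simp only [mulVec, dotProduct, Matrix.sum_apply, Matrix.smul_apply, smul_eq_mul,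
      Finset.sum_mul]
    rw [Finset.sum_comm]
    exact Finset.sum_congr rfl fun i _ => Finset.sum_congr rfl fun j _ => by ring
  have h2 : (S.Gam w x *ᵥ v) k = ∑ i, ∑ j, v i * w j * S.Γ j x k i := by
    unfold Gam
    simp only [mulVec, dotProduct, Matrix.sum_apply, Matrix.smul_apply, smul_eq_mul,
      Finset.sum_mul]
    exact Finset.sum_congr rfl fun i _ => Finset.sum_congr rfl fun j _ => by ring
  rw [Pi.sub_apply, h1, h2, ← Finset.sum_sub_distrib, Finset.mul_sum]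
  refine Finset.sum_congr rfl fun i _ => ?_
  rw [← Finset.sum_sub_distrib, Finset.mul_sum]
  refine Finset.sum_congr rfl fun j _ => ?_
  rw [← mul_sub, S.torsion x hx i j k]
  ring

theorem GA_diffG {x : E4} (hx : x ≠ 0) : DifferentiableAt ℝ S.G x := S.smG.differentiableAt hx

theorem nab_g {x : E4} (hx : x ≠ 0) {V W : E4 → V3} (hV : DifferentiableAt ℝ V x)
    (hW : DifferentiableAt ℝ W x) (v : V3) :
    Dv (fun y => S.g y (V y) (W y)) v x = S.g x (S.nab V v x) (W x) + S.g x (V x) (S.nab W v x) := by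
  have hGW : DifferentiableAt ℝ (fun y => S.G y *ᵥ W y) x :=
    ((B0b_H_of (v := 0) (S.GA_diffG hx)).bilin B0b_bil_mulVec (B0b_H_of hW)).diff
  have h1 : Dv (fun y => S.g y (V y) (W y)) v x =
      Dv V v x ⬝ᵥ (S.G x *ᵥ W x) + V x ⬝ᵥ (Dv S.G v x *ᵥ W x + S.G x *ᵥ Dv W v x) := by
    unfold g bil
    rw [Dv_dotProduct hV hGW, Dv_mulVec (S.GA_diffG hx) hW]
  rw [h1, S.metric_v hx]
  unfold g nab
  rw [GA_bil_add_left, GA_bil_add_right, GA_bil_mulVec_left, GA_bil_mulVec_right, add_mulVec,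
    dotProduct_add, dotProduct_add]
  unfold bil
  ring

theorem nab_mulVec {x : E4} {A : E4 → M3} {V : E4 → V3} (hA : DifferentiableAt ℝ A x)
    (hV : DifferentiableAt ℝ V x) (v : V3) :
    S.nab (fun y => A y *ᵥ V y) v x = S.nabE A v x *ᵥ V x + A x *ᵥ S.nab V v x := by
  unfold nab nabE
  rw [Dv_mulVec hA hV, add_mulVec, sub_mulVec, mulVec_add, ← Matrix.mulVec_mulVec,
    ← Matrix.mulVec_mulVec]
  abel

theorem nabE_mul {x : E4} {A B : E4 → M3} (hA : DifferentiableAt ℝ A x)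
    (hB : DifferentiableAt ℝ B x) (v : V3) :
    S.nabE (fun y => A y * B y) v x = S.nabE A v x * B x + A x * S.nabE B v x := by
  unfold nabE
  rw [Dv_mul hA hB]
  simp only [add_mul, mul_add, sub_mul, mul_sub, ← mul_assoc]
  abel

theorem nabE_adjugate {x : E4} {A : E4 → M3} (hA : DifferentiableAt ℝ A x) (v : V3) :
    S.nabE (fun y => (A y).adjugate) v x = crossM (A x) (S.nabE A v x) := by
  unfold nabE
  rw [Dv_adjugate hA, AD_cross_add, GA_adj_comm]

theorem Dv_trace_nabE {x : E4} {A : E4 → M3} (hA : DifferentiableAt ℝ A x) (v : V3) :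
    Dv (fun y => (A y).trace) v x = (S.nabE A v x).trace := by
  unfold nabE
  rw [Dv_trace hA, Matrix.trace_add, Matrix.trace_sub, Matrix.trace_mul_comm, sub_self, add_zero]

theorem Dv_det_nabE {x : E4} {A : E4 → M3} (hA : DifferentiableAt ℝ A x) (v : V3) :
    Dv (fun y => (A y).det) v x = ((A x).adjugate * S.nabE A v x).trace := by
  unfold nabE
  rw [Dv_det hA, mul_add, Matrix.trace_add, GA_trace_adj_comm, add_zero]

/-- covariant derivative of a dyad `V ⊗ W♭` -/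
theorem nabE_dyad {x : E4} (hx : x ≠ 0) {V W : E4 → V3} (hV : DifferentiableAt ℝ V x)
    (hW : DifferentiableAt ℝ W x) (v : V3) :
    S.nabE (fun y => vecMulVec (V y) (S.G y *ᵥ W y)) v x
      = vecMulVec (S.nab V v x) (S.G x *ᵥ W x) + vecMulVec (V x) (S.G x *ᵥ S.nab W v x) := by
  have hGW : DifferentiableAt ℝ (fun y => S.G y *ᵥ W y) x :=
    ((B0b_H_of (v := 0) (S.GA_diffG hx)).bilin B0b_bil_mulVec (B0b_H_of hW)).diff
  unfold nabE nab
  rw [Dv_vecMulVec hV hGW, Dv_mulVec (S.GA_diffG hx) hW, S.metric_v hx, GA_mul_vecMulVec,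
    GA_vecMulVec_mul, add_mulVec, ← Matrix.mulVec_mulVec, ← Matrix.mulVec_mulVec, mulVec_add,
    add_vecMulVec, vecMulVec_add, vecMulVec_add, vecMulVec_add]
  abel

theorem GA_diffL {x : E4} (hx : x ≠ 0) : DifferentiableAt ℝ S.L x := S.smL.differentiableAt hx

theorem GA_diffLt (t : ℝ) {x : E4} (hx : x ≠ 0) :
    DifferentiableAt ℝ (fun y => S.L y - t • (1 : M3)) x := (S.GA_diffL hx).sub_const _

theorem GA_nabE_Lt (t : ℝ) {x : E4} (hx : x ≠ 0) (v : V3) :
    S.nabE (fun y => S.L y - t • (1 : M3)) v x = S.od x v (S.lam x) := by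
  rw [← S.main_v hx]
  unfold nabE
  rw [Dv_sub (S.GA_diffL hx) (differentiableAt_const _), Dv_const]
  simp only [sub_zero, mul_sub, sub_mul, mul_smul_comm, smul_mul_assoc, mul_one, one_mul]
  abel

theorem nabE_K (t : ℝ) {x : E4} (hx : x ≠ 0) (v : V3) :
    S.nabE (S.K t) v x = crossM (S.L x - t • (1 : M3)) (S.od x v (S.lam x)) := by
  rw [← S.GA_nabE_Lt t hx]
  exact S.nabE_adjugate (S.GA_diffLt t hx) v

theorem GA_trace_od (A : M3) (x : E4) (hx : x ≠ 0) (hA : Aᵀ * S.G x = S.G x * A) (u w : V3) :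
    (A * S.od x u w).trace = 2 * S.g x (A *ᵥ w) u := by
  unfold od odot
  rw [mul_add, GA_mul_vecMulVec, GA_mul_vecMulVec, Matrix.trace_add, GA_trace_vecMulVec,
    GA_trace_vecMulVec]
  have h1 : (A *ᵥ u) ⬝ᵥ (S.G x *ᵥ w) = S.g x (A *ᵥ w) u := by
    have h2 : (A *ᵥ u) ⬝ᵥ (S.G x *ᵥ w) = bil (S.G x) (A *ᵥ u) w := rfl
    rw [h2, GA_sa_bil hA, GA_bil_symm (S.symm x hx)]; rfl
  have h3 : (A *ᵥ w) ⬝ᵥ (S.G x *ᵥ u) = S.g x (A *ᵥ w) u := rfl
  rw [h1, h3]
  ring

theorem Dv_trL {x : E4} (hx : x ≠ 0) (v : V3) :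
    Dv (fun y => (S.L y).trace) v x = 2 * S.g x (S.lam x) v := by
  rw [S.Dv_trace_nabE (S.GA_diffL hx), S.main_v hx]
  have h := S.GA_trace_od 1 x hx (by rw [Matrix.transpose_one, Matrix.one_mul, Matrix.mul_one])
    v (S.lam x)
  rw [Matrix.one_mul, Matrix.one_mulVec] at h
  exact h

theorem Dv_detL (t : ℝ) {x : E4} (hx : x ≠ 0) (v : V3) :
    Dv (fun y => (S.L y - t • (1 : M3)).det) v x = 2 * S.g x (S.K t x *ᵥ S.lam x) v := by
  rw [S.Dv_det_nabE (S.GA_diffLt t hx), S.GA_nabE_Lt t hx]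
  exact S.GA_trace_od (S.K t x) x hx (S.GA_K t hx) v (S.lam x)

theorem Dv_trL2 {x : E4} (hx : x ≠ 0) (v : V3) :
    Dv (fun y => (S.L y * S.L y).trace) v x = 4 * S.g x (S.L x *ᵥ S.lam x) v := by
  have hd : DifferentiableAt ℝ (fun y => S.L y * S.L y) x :=
    ((B0b_H_of (v := 0) (S.GA_diffL hx)).bilin B0b_bil_mul (B0b_H_of (S.GA_diffL hx))).diff
  rw [S.Dv_trace_nabE hd, S.nabE_mul (S.GA_diffL hx) (S.GA_diffL hx), S.main_v hx,
    Matrix.trace_add, Matrix.trace_mul_comm (S.od x v (S.lam x)),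
    S.GA_trace_od (S.L x) x hx (S.GA_L hx) v (S.lam x)]
  ring

theorem GA_nab_linear (V : E4 → V3) (v : V3) (x : E4) :
    S.nab V v x = ∑ j, v j • S.nab V (ee j) x := by
  unfold nab
  rw [Dv_linear V v x]
  have h : S.Gam v x *ᵥ V x = ∑ j, v j • (S.Gam (ee j) x *ᵥ V x) := by
    have h1 : S.Gam v x = ∑ j, v j • S.Gam (ee j) x := by
      simp only [GA_Gam_ee]; rfl
    rw [h1, Matrix.sum_mulVec]
    exact Finset.sum_congr rfl fun j _ => by rw [Matrix.smul_mulVec]
  rw [h, ← Finset.sum_add_distrib]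
  exact Finset.sum_congr rfl fun j _ => by rw [smul_add]

theorem Lam_mulVec (x : E4) (v : V3) : S.Lam x *ᵥ v = S.nab S.lam v x := by
  rw [S.GA_nab_linear]
  funext i
  rw [Finset.sum_apply]
  simp only [Lam, mulVec, dotProduct, Matrix.of_apply, Pi.smul_apply, smul_eq_mul]
  exact Finset.sum_congr rfl fun j _ => mul_comm _ _

theorem sm_Lam : Sm S.Lam := by
  intro x hx
  have hx' : x ≠ 0 := hx
  have h : ContDiffAt ℝ ∞ S.Lam x := by
    rw [contDiffAt_entries]
    intro i j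
    have h1 : ContDiffAt ℝ ∞ (fun y => S.nab S.lam (ee j) y) x := by
      unfold nab
      refine ((S.smlam.Dv (ee j)).contDiffAt hx').add (contDiffAt_mulVec ?_ (S.smlam.contDiffAt hx'))
      have h0 : S.Gam (ee j) = S.Γ j := funext fun y => S.GA_Gam_ee j y
      rw [h0]
      exact (S.smΓ j).contDiffAt hx'
    have h2 := (contDiffAt_pi.1 h1) i
    exact h2
  exact h.contDiffWithinAt

theorem hom_Lam : Hom S.Lam := by
  intro t ht x
  ext i j
  simp only [Lam, Matrix.of_apply, nab, GA_Gam_ee]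
  rw [show Dv S.lam (ee j) (t • x) = Dv S.lam (ee j) x from S.homlam.Dv (ee j) t ht x,
    S.homΓ j t ht x, S.homlam t ht x]

theorem sm_K (t : ℝ) : Sm (S.K t) := by
  intro x hx
  have hx' : x ≠ 0 := hx
  have h : ContDiffAt ℝ ∞ (S.K t) x :=
    contDiffAt_adjugate ((S.smL.contDiffAt hx').sub contDiffAt_const)
  exact h.contDiffWithinAt

theorem hom_K (t : ℝ) : Hom (S.K t) := by
  intro s hs x
  unfold K
  rw [S.homL s hs x]

theorem GA_second {x : E4} (hx : x ≠ 0) (i j : Fin 3) :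
    Dv (fun y => Dv (fun z => (S.L z).trace) (ee j) y) (ee i) x
      = 2 * (S.g x (S.Lam x *ᵥ ee i) (ee j) + S.g x (S.lam x) (S.Γ i x *ᵥ ee j)) := by
  have h1 : (fun y => Dv (fun z => (S.L z).trace) (ee j) y) =ᶠ[𝓝 x]
      fun y => (2 : ℝ) * S.g y (S.lam y) (ee j) := by
    filter_upwards [isOpen_compl_singleton.mem_nhds (show x ∈ ({0}ᶜ : Set E4) from hx)] with y hy
    exact S.Dv_trL hy (ee j)
  have hl := S.smlam.differentiableAt hx
  have hg : DifferentiableAt ℝ (fun y => S.g y (S.lam y) (ee j)) x := by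
    have hGW : DifferentiableAt ℝ (fun y => S.G y *ᵥ ee j) x :=
      ((B0b_H_of (v := 0) (S.GA_diffG hx)).bilin B0b_bil_mulVec
        (B0b_H_of (differentiableAt_const _))).diff
    exact ((B0b_H_of (v := 0) hl).bilin B0b_bil_dotProduct (B0b_H_of hGW)).diff
  rw [B0b_Dv_congr h1]
  have h2 : Dv (fun y => (2 : ℝ) * S.g y (S.lam y) (ee j)) (ee i) x =
      2 * Dv (fun y => S.g y (S.lam y) (ee j)) (ee i) x := by
    have := Dv_smul (v := ee i) (f := fun _ => (2 : ℝ)) (differentiableAt_const _) hg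
    rw [Dv_const, zero_smul, zero_add] at this
    exact this
  rw [h2, S.nab_g hx hl (differentiableAt_const _), S.Lam_mulVec]
  unfold nab
  rw [Dv_const, zero_add, GA_Gam_ee]

theorem Lam_sa {x : E4} (hx : x ≠ 0) : (S.G x * S.Lam x)ᵀ = S.G x * S.Lam x := by
  have key : ∀ i j : Fin 3, S.g x (S.Lam x *ᵥ ee i) (ee j) = S.g x (S.Lam x *ᵥ ee j) (ee i) := by
    intro i j
    have hc : ContDiffAt ℝ 2 (fun z => (S.L z).trace) x :=
      (contDiffAt_trace (S.smL.contDiffAt hx)).of_le ENat.LEInfty.out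
    have h1 := commutator hc i j
    rw [S.GA_second hx, S.GA_second hx] at h1
    simp only [S.Dv_trL hx, smul_eq_mul] at h1
    have h2 := S.torsion_v hx (ee i) (ee j)
    rw [GA_Gam_ee, GA_Gam_ee] at h2
    have h3 : (fun k => 2 * ∑ i', ∑ j', eps i' j' k * (ee i : V3) i' * (ee j : V3) j') =
        ∑ k, (2 * eps i j k) • (ee k : V3) := by
      funext k
      have h4 : ∑ i', ∑ j', eps i' j' k * (ee i : V3) i' * (ee j : V3) j' = eps i j k := by
        rw [Finset.sum_eq_single i, Finset.sum_eq_single j]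
        · simp [ee]
        · intro j' _ hj'; simp [ee, hj']
        · simp
        · intro i' _ hi'
          refine Finset.sum_eq_zero fun j' _ => ?_
          simp [ee, hi']
        · simp
      rw [h4, Finset.sum_apply, Finset.sum_eq_single k]
      · simp [ee]
      · intro k' _ hk'; simp [ee, hk'.symm]
      · simp
    rw [h3] at h2
    have h5 : S.g x (S.lam x) (S.Γ i x *ᵥ ee j) - S.g x (S.lam x) (S.Γ j x *ᵥ ee i) =
        ∑ k, (2 * eps i j k) * S.g x (S.lam x) (ee k) := by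
      have h6 : S.g x (S.lam x) (S.Γ i x *ᵥ ee j) - S.g x (S.lam x) (S.Γ j x *ᵥ ee i) =
          S.g x (S.lam x) (S.Γ i x *ᵥ ee j - S.Γ j x *ᵥ ee i) := by
        rw [sub_eq_add_neg (S.Γ i x *ᵥ ee j), ← neg_one_smul ℝ (S.Γ j x *ᵥ ee i)]
        unfold g
        rw [GA_bil_add_right, GA_bil_smul_right]
        ring
      rw [h6, h2]
      unfold g
      rw [Fin.sum_univ_three, Fin.sum_univ_three, GA_bil_add_right, GA_bil_add_right,
        GA_bil_smul_right, GA_bil_smul_right, GA_bil_smul_right]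
    have h7 : ∑ k, (2 * eps i j k) * (2 * S.g x (S.lam x) (ee k)) =
        2 * ∑ k, (2 * eps i j k) * S.g x (S.lam x) (ee k) := by
      rw [Finset.mul_sum]
      exact Finset.sum_congr rfl fun k _ => by ring
    rw [h7, ← h5] at h1
    linarith
  ext i j
  rw [Matrix.transpose_apply]
  have h1 : ∀ i j : Fin 3, (S.G x * S.Lam x) i j = S.g x (ee i) (S.Lam x *ᵥ ee j) := by
    intro i j
    unfold g
    rw [GA_bil_mulVec_right]
    unfold ee
    rw [Matrix.mulVec_single_one, single_one_dotProduct]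
    rfl
  rw [h1, h1, S.g_symm hx, key, S.g_symm hx]

theorem g_Lam {x : E4} (hx : x ≠ 0) (u v : V3) :
    S.g x (S.Lam x *ᵥ u) v = S.g x u (S.Lam x *ᵥ v) :=
  GA_sa_bil ((GA_sa_iff (S.symm x hx)).1 (S.Lam_sa hx)) u v

theorem K_killing (t : ℝ) {x : E4} (hx : x ≠ 0) (v : V3) :
    S.g x v (S.nabE (S.K t) v x *ᵥ v) = 0 := by
  rw [S.nabE_K t hx]
  refine AD_killing (S.G x) _ (S.symm x hx) ?_ v (S.lam x)
  rw [GA_sa_iff (S.symm x hx), Matrix.transpose_sub, Matrix.transpose_smul, Matrix.transpose_one,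
    Matrix.sub_mul, S.GA_L hx, Matrix.mul_sub, Matrix.smul_mul, Matrix.mul_smul, Matrix.one_mul,
    Matrix.mul_one]

end Geo

end Pool.Agent.helper68.B2
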